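import Mathlib
import Pool.Agent.R354.Dens

/-!
# Lower densities need not be homogeneous

On each of the three sets `ℤ`, `ℕ`, `ℕ⁺` there is a lower density which is not
`(-1)`-homogeneous.
-/

namespace Pool.Agent.Results.MP_1da4e9_nt.NotHomogeneous

open Pool.Agent.R354.Dens

/-- `μ` is an upper density on the set of integers `H` (only its values on subsets of `H` matter):
(F1), monotonicity, (F3), (F4 flat) and values at most one. -/
structure IsUpperDensityOn (H : Set ℤ) (μ : Set ℤ → ℝ) : Prop where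
  /-- (F1) -/
  whole : μ H = 1
  /-- monotonicity -/
  mono : ∀ X Y : Set ℤ, X ⊆ Y → Y ⊆ H → μ X ≤ μ Y
  /-- (F3) -/
  union_le : ∀ X Y : Set ℤ, X ⊆ H → Y ⊆ H → μ (X ∪ Y) ≤ μ X + μ Y
  /-- (F4 flat) -/
  affine : ∀ (X : Set ℤ) (h k : ℕ), X ⊆ H → 0 < h → 0 < k →
    μ ((fun x : ℤ => k * x + h) '' X) = 1 / (k : ℝ) * μ X
  /-- values are at most one -/
  le_one : ∀ X : Set ℤ, X ⊆ H → μ X ≤ 1

/-- The lower dual of `μ` on `H`. -/
def lowerDual (H : Set ℤ) (μ : Set ℤ → ℝ) (X : Set ℤ) : ℝ := 1 - μ (H \ X)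

/-- the upper density of the counterexample -/
private noncomputable def muS (X : Set ℤ) : ℝ :=
  max ((D {0} X + D Set.univ X) / 2) (3 / 4 * D Set.univ X)

private lemma muS_upper {H : Set ℤ} (hH : Set.Ici 1 ⊆ H) : IsUpperDensityOn H muS := by
  have hlong : ∀ n : ℕ, Set.Ioc (0 : ℤ) (0 + n) ⊆ H := fun n x hx => hH (by
    have := hx.1
    simp only [Set.mem_Ici]; omega)
  have h1 : D {0} H = 1 := D_eq_one fun n => ⟨0, rfl, hlong n⟩
  have h2 : D Set.univ H = 1 := D_eq_one fun n => ⟨0, Set.mem_univ _, hlong n⟩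
  refine ⟨?_, ?_, ?_, ?_, ?_⟩
  · simp only [muS, h1, h2]
    norm_num
  · intro X Y hXY _
    have a1 := D_mono (A := {0}) hXY
    have a2 := D_mono (A := Set.univ) hXY
    unfold muS
    apply max_le_max <;> linarith
  · intro X Y _ _
    have a1 := D_union {0} X Y
    have a2 := D_union Set.univ X Y
    unfold muS
    apply max_le
    · have b1 := le_max_left ((D {0} X + D Set.univ X) / 2) (3 / 4 * D Set.univ X)
      have b2 := le_max_left ((D {0} Y + D Set.univ Y) / 2) (3 / 4 * D Set.univ Y)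
      linarith
    · have b1 := le_max_right ((D {0} X + D Set.univ X) / 2) (3 / 4 * D Set.univ X)
      have b2 := le_max_right ((D {0} Y + D Set.univ Y) / 2) (3 / 4 * D Set.univ Y)
      linarith
  · intro X h k _ _ hk
    have a1 := D_aff cl_zero k hk h X
    have a2 := D_aff cl_univ k hk h X
    unfold aff at a1 a2
    unfold muS
    rw [a1, a2, mul_max_of_nonneg _ _ (by positivity)]
    congr 1 <;> ring
  · intro X _
    have a1 := D_le_one {0} X
    have a2 := D_le_one Set.univ X
    unfold muS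
    apply max_le <;> linarith

/-- Q1 is false for each of the three choices of `H`: some lower density on `H` is not
`(-1)`-homogeneous. -/
theorem result (H : Set ℤ) (hH : H = Set.univ ∨ H = Set.Ici 0 ∨ H = Set.Ici 1) :
    ∃ μ : Set ℤ → ℝ, IsUpperDensityOn H μ ∧ ∃ (X : Set ℤ) (k : ℕ), X ⊆ H ∧ 0 < k ∧
      lowerDual H μ ((fun x : ℤ => k * x) '' X) ≠ 1 / (k : ℝ) * lowerDual H μ X := by
  have hH1 : Set.Ici 1 ⊆ H := by
    rcases hH with rfl | rfl | rfl
    · exact Set.subset_univ _
    · intro x hx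
      simp only [Set.mem_Ici] at *
      omega
    · exact subset_rfl
  have hZH : Z ⊆ H := by
    rintro x ⟨n, _, h1, _⟩
    apply hH1
    have : 0 < n.factorial := n.factorial_pos
    simp only [Set.mem_Ici]
    omega
  have hhalf : ∀ x : ℤ, 2 * x ∈ H → x ∈ H := by
    rcases hH with rfl | rfl | rfl
    · intro x _
      exact Set.mem_univ _
    · intro x hx
      simp only [Set.mem_Ici] at *
      omega
    · intro x hx
      simp only [Set.mem_Ici] at *
      omega
  refine ⟨muS, muS_upper hH1, H \ Z, 2, Set.sdiff_subset, by norm_num, ?_⟩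
  -- the value at `X`
  have hbZ : D Set.univ Z = 1 := D_eq_one fun n => by
    obtain ⟨a, _, ha⟩ := Z_long n
    exact ⟨a, Set.mem_univ _, ha⟩
  have e1 : lowerDual H muS (H \ Z) = 1 / 4 := by
    unfold lowerDual
    rw [Set.sdiff_sdiff_right_self, Set.inter_eq_self_of_subset_right hZH]
    simp only [muS, hbZ, D_Z]
    norm_num
  -- the value at `2X`
  have e2 : lowerDual H muS ((fun x : ℤ => ((2 : ℕ) : ℤ) * x) '' (H \ Z)) = 1 / 4 := by
    unfold lowerDual
    set Y := H \ ((fun x : ℤ => ((2 : ℕ) : ℤ) * x) '' (H \ Z)) with hY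
    have hd : D {0} Y ≤ 1 / 2 := by
      have hsub : Y ⊆ aff (2 : ℕ) 1 Set.univ ∪ aff (2 : ℕ) 0 Z := by
        rintro x ⟨hx, hx2⟩
        rcases Int.even_or_odd' x with ⟨c, hc | hc⟩
        · right
          refine ⟨c, ?_, by simp only [hc]; push_cast; ring⟩
          by_contra hcZ
          apply hx2
          refine ⟨c, ⟨hhalf c (hc ▸ hx), hcZ⟩, by simp only [hc]; push_cast; ring⟩
        · left
          exact ⟨c, Set.mem_univ _, by simp only [hc]; push_cast; ring⟩
      calc D {0} Y ≤ D {0} (aff (2 : ℕ) 1 Set.univ ∪ aff (2 : ℕ) 0 Z) := D_mono hsub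
        _ ≤ D {0} (aff (2 : ℕ) 1 Set.univ) + D {0} (aff (2 : ℕ) 0 Z) := D_union _ _ _
        _ ≤ 1 / 2 := by
          rw [D_aff cl_zero 2 (by norm_num), D_aff cl_zero 2 (by norm_num), D_Z]
          have := D_le_one {0} Set.univ
          push_cast
          linarith
    have hb : D Set.univ Y = 1 := by
      apply D_eq_one
      intro n
      obtain ⟨a, ha0, ha⟩ := Z_long n
      refine ⟨2 * a, Set.mem_univ _, ?_⟩
      rintro x ⟨h1, h2⟩
      refine ⟨hH1 (by simp only [Set.mem_Ici]; omega), ?_⟩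
      rintro ⟨y, ⟨_, hyZ⟩, rfl⟩
      simp only at h1 h2
      push_cast at h1 h2
      exact hyZ (ha ⟨by omega, by omega⟩)
    have : muS Y = 3 / 4 := by
      unfold muS
      rw [hb]
      rw [max_eq_right (by linarith)]
      norm_num
    rw [this]
    norm_num
  rw [e1, e2]
  norm_num

end Pool.Agent.Results.MP_1da4e9_nt.NotHomogeneous
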