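import Mathlib
import Pool.Agent.R354.Dens

/-!
# Translation invariance of lower quasi-densities

On `ℕ` and on `ℕ⁺` there is a lower quasi-density that is not translation invariant, while every
lower quasi-density on `ℤ` is translation invariant.
-/

namespace Pool.Agent.Results.MP_1da4e9_nt.TranslationInvariance

open Pool.Agent.R354.Dens

/-- `μ` is an upper quasi-density on the set of integers `H` (only its values on subsets of `H`
matter): (F1), (F3), (F4 flat) and values at most one; monotonicity is not assumed. -/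
structure IsUpperQuasiDensityOn (H : Set ℤ) (μ : Set ℤ → ℝ) : Prop where
  /-- (F1) -/
  whole : μ H = 1
  /-- (F3) -/
  union_le : ∀ X Y : Set ℤ, X ⊆ H → Y ⊆ H → μ (X ∪ Y) ≤ μ X + μ Y
  /-- (F4 flat) -/
  affine : ∀ (X : Set ℤ) (h k : ℕ), X ⊆ H → 0 < h → 0 < k →
    μ ((fun x : ℤ => k * x + h) '' X) = 1 / (k : ℝ) * μ X
  /-- values are at most one -/
  le_one : ∀ X : Set ℤ, X ⊆ H → μ X ≤ 1

/-- The lower dual of `μ` on `H`. -/
def lowerDual (H : Set ℤ) (μ : Set ℤ → ℝ) (X : Set ℤ) : ℝ := 1 - μ (H \ X)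

/-- Every lower quasi-density on `H` is translation invariant: for the lower dual of every upper
quasi-density on `H`, every subset `X` of `H` and every `h ≥ 0`, the sets `X + h` and `X` have
the same value. -/
def AllLowerInvariant (H : Set ℤ) : Prop :=
  ∀ μ : Set ℤ → ℝ, IsUpperQuasiDensityOn H μ → ∀ (X : Set ℤ) (h : ℕ), X ⊆ H →
    lowerDual H μ ((fun x : ℤ => x + h) '' X) = lowerDual H μ X

/-- the rigid set -/
private def W (m : ℤ) : Set ℤ := {m, m + 1} ∪ Z

/-- the sets containing an affine copy of the rigid set -/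
private def S (m : ℤ) : Set (Set ℤ) := {X | ∃ k : ℕ, 0 < k ∧ ∃ t : ℤ, aff k t (W m) ⊆ X}

private lemma S_up {m : ℤ} {X Y : Set ℤ} (h : X ⊆ Y) (hX : X ∈ S m) : Y ∈ S m := by
  obtain ⟨k, hk, t, ht⟩ := hX
  exact ⟨k, hk, t, ht.trans h⟩

private lemma S_aff {m : ℤ} {X : Set ℤ} (k : ℕ) (hk : 0 < k) (h : ℤ) :
    aff k h X ∈ S m ↔ X ∈ S m := by
  have hk' : (0 : ℤ) < k := by exact_mod_cast hk
  constructor
  · rintro ⟨k', hk0, t, ht⟩
    obtain ⟨x, hx, hxe⟩ := ht ⟨m, Or.inl (Or.inl rfl), rfl⟩
    obtain ⟨y, hy, hye⟩ := ht ⟨m + 1, Or.inl (Or.inr rfl), rfl⟩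
    simp only at hxe hye
    have hk2 : (k' : ℤ) = k * (y - x) := by linarith
    have hyx : 0 < y - x := by
      by_contra hc
      push Not at hc
      have : (k : ℤ) * (y - x) ≤ 0 := mul_nonpos_of_nonneg_of_nonpos hk'.le hc
      omega
    refine ⟨(y - x).toNat, by omega, x - (y - x) * m, ?_⟩
    rintro z ⟨w, hw, rfl⟩
    obtain ⟨v, hv, hve⟩ := ht ⟨w, hw, rfl⟩
    simp only at hve
    have : (k : ℤ) * v = k * (((y - x).toNat : ℤ) * w + (x - (y - x) * m)) := by
      rw [Int.toNat_of_nonneg hyx.le]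
      have e1 : (k : ℤ) * v = k' * w + t - h := by linarith
      have e2 : t - h = k * x - k' * m := by linarith
      rw [e1, hk2]
      rw [hk2] at e2
      linear_combination e2
    have hveq := mul_left_cancel₀ hk'.ne' this
    simp only
    rw [← hveq]
    exact hv
  · rintro ⟨k', hk0, t, ht⟩
    refine ⟨k * k', Nat.mul_pos hk hk0, k * t + h, ?_⟩
    rintro z ⟨w, hw, rfl⟩
    refine ⟨_, ht ⟨w, hw, rfl⟩, ?_⟩
    simp only
    push_cast
    ring

private lemma W_loc {m : ℤ} (hm : m = 0 ∨ m = 1) {n : ℕ} (hn : 3 ≤ n) {x : ℤ} (hx : x ∈ W m)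
    (h1 : ((n - 1).factorial : ℤ) + (n - 1) < x) (h2 : x < (n + 1).factorial) :
    (n.factorial : ℤ) ≤ x ∧ x ≤ n.factorial + n := by
  rcases hx with hx | ⟨j, hj, hj1, hj2⟩
  · exfalso
    have hp : 0 < (n - 1).factorial := Nat.factorial_pos _
    have : x ≤ m + 1 := by
      rcases hx with rfl | hx
      · omega
      · exact le_of_eq hx
    omega
  · rcases lt_trichotomy j n with h | h | h
    · exfalso
      have : j.factorial ≤ (n - 1).factorial := Nat.factorial_le (by omega)
      omega
    · subst h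
      exact ⟨hj1, hj2⟩
    · exfalso
      have : (n + 1).factorial ≤ j.factorial := Nat.factorial_le h
      omega

/-- the rigid set has no affine self-embedding but the identity -/
private lemma rigid {m : ℤ} (hm : m = 0 ∨ m = 1) {k : ℕ} (hk : 0 < k) {t : ℤ}
    (h : aff k t (W m) ⊆ W m) : k = 1 ∧ t = 0 := by
  -- a large index
  obtain ⟨n, hn⟩ : ∃ n : ℕ, n = k + t.natAbs + 5 := ⟨_, rfl⟩
  have hn1 : n.factorial = n * (n - 1).factorial := by
    conv_lhs => rw [show n = (n - 1) + 1 by omega, Nat.factorial_succ]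
    rw [show n - 1 + 1 = n by omega]
  have hn2 : (n + 1).factorial = (n + 1) * (n * (n - 1).factorial) := by
    rw [Nat.factorial_succ, hn1]
  have hF : n - 1 ≤ (n - 1).factorial := Nat.self_le_factorial _
  have hnZ : (n.factorial : ℤ) ∈ Z := ⟨n, by omega, le_rfl, by omega⟩
  have hnZ' : (n.factorial : ℤ) + n ∈ Z := ⟨n, by omega, by omega, le_rfl⟩
  have hx := h ⟨_, Or.inr hnZ, rfl⟩
  have hy := h ⟨_, Or.inr hnZ', rfl⟩
  simp only at hx hy
  obtain ⟨F, hFdef⟩ : ∃ F : ℤ, F = (n - 1).factorial := ⟨_, rfl⟩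
  have hF' : (n : ℤ) - 1 ≤ F := by omega
  have hnr : (n : ℤ) = k + |t| + 5 := by
    rw [hn]; push_cast; rfl
  have hk1 : (1 : ℤ) ≤ k := by exact_mod_cast hk
  have hta := abs_nonneg t
  have ht1 := le_abs_self t
  have ht2 := neg_abs_le t
  have e1 : (n.factorial : ℤ) = n * F := by rw [hn1, hFdef]; push_cast; ring
  have e2 : ((n + 1).factorial : ℤ) = (n + 1) * (n * F) := by rw [hn2, hFdef]; push_cast; ring
  have hnF : 0 < (n : ℤ) * F := by
    apply mul_pos <;> omega
  have hnF1 : (n : ℤ) * (n - 1) ≤ n * F := by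
    apply mul_le_mul_of_nonneg_left hF'; omega
  have hxl : F + (n - 1) < k * (n * F) + t := by
    have a1 : (n : ℤ) * F ≤ k * (n * F) := le_mul_of_one_le_left hnF.le hk1
    have a2 : 4 * F ≤ ((n : ℤ) - 1) * F := by
      apply mul_le_mul_of_nonneg_right <;> omega
    have a3 : (n : ℤ) * F = (n - 1) * F + F := by ring
    omega
  have hyu : k * (n * F + n) + t < (n + 1) * (n * F) := by
    have a1 : (k : ℤ) + 6 ≤ n + 1 := by omega
    have a2 : ((k : ℤ) + 6) * (n * F) ≤ (n + 1) * (n * F) :=
      mul_le_mul_of_nonneg_right a1 hnF.le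
    have a3 : (k : ℤ) * n ≤ (n - 1) * n := by
      apply mul_le_mul_of_nonneg_right <;> omega
    have a4 : ((k : ℤ) + 6) * (n * F) = k * (n * F) + 6 * (n * F) := by ring
    have a5 : k * ((n : ℤ) * F + n) = k * (n * F) + k * n := by ring
    have a6 : (n : ℤ) * (n - 1) = (n - 1) * n := by ring
    have a7 : (n : ℤ) ≤ n * F := by
      apply le_mul_of_one_le_right <;> omega
    omega
  have hmono : (k : ℤ) * (n * F) ≤ k * (n * F + n) := by
    apply mul_le_mul_of_nonneg_left <;> omega
  have hX := W_loc hm (n := n) (by omega) hx (by rw [e1, ← hFdef]; omega) (by rw [e1, e2]; omega)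
  have hY := W_loc hm (n := n) (by omega) hy (by rw [e1, ← hFdef]; omega) (by rw [e1, e2]; omega)
  rw [e1] at hX hY
  have hk2 : k = 1 := by
    by_contra hne
    have hk3 : (2 : ℤ) ≤ k := by omega
    have a1 : 2 * ((n : ℤ) * F + n) ≤ k * (n * F + n) := by
      apply mul_le_mul_of_nonneg_right hk3; omega
    omega
  refine ⟨hk2, ?_⟩
  subst hk2
  push_cast at hX hY
  omega

open Classical in
/-- the upper quasi-density of the counterexample -/
private noncomputable def muS (m : ℤ) (X : Set ℤ) : ℝ :=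
  if X ∈ S m then D {0} X else D Set.univ X

private lemma D_le_muS (m : ℤ) (X : Set ℤ) : D {0} X ≤ muS m X := by
  unfold muS
  split_ifs
  · exact le_rfl
  · exact D_anti (Set.subset_univ _) X

private lemma muS_upper {H : Set ℤ} {m : ℤ} (hm : m = 0 ∨ m = 1) (hH : H = Set.Ici m) :
    IsUpperQuasiDensityOn H (muS m) := by
  have hlong : ∀ n : ℕ, Set.Ioc (0 : ℤ) (0 + n) ⊆ H := fun n x hx => by
    have := hx.1
    rw [hH]
    simp only [Set.mem_Ici]; omega
  have h1 : D {0} H = 1 := D_eq_one fun n => ⟨0, rfl, hlong n⟩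
  have h2 : D Set.univ H = 1 := D_eq_one fun n => ⟨0, Set.mem_univ _, hlong n⟩
  refine ⟨?_, ?_, ?_, ?_⟩
  · unfold muS
    split_ifs
    · exact h1
    · exact h2
  · intro X Y _ _
    by_cases hXY : X ∪ Y ∈ S m
    · have : muS m (X ∪ Y) = D {0} (X ∪ Y) := if_pos hXY
      rw [this]
      have := D_union {0} X Y
      have := D_le_muS m X
      have := D_le_muS m Y
      linarith
    · have e1 : muS m (X ∪ Y) = D Set.univ (X ∪ Y) := if_neg hXY
      have e2 : muS m X = D Set.univ X := if_neg fun hX => hXY (S_up Set.subset_union_left hX)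
      have e3 : muS m Y = D Set.univ Y := if_neg fun hX => hXY (S_up Set.subset_union_right hX)
      rw [e1, e2, e3]
      exact D_union _ _ _
  · intro X h k _ _ hk
    have a1 := D_aff cl_zero k hk h X
    have a2 := D_aff cl_univ k hk h X
    have a3 := S_aff (m := m) (X := X) k hk h
    unfold aff at a1 a2 a3
    by_cases hX : X ∈ S m
    · have e1 : muS m X = D {0} X := if_pos hX
      have e2 : muS m ((fun x : ℤ => k * x + h) '' X) = D {0} ((fun x : ℤ => k * x + h) '' X) :=
        if_pos (a3.2 hX)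
      rw [e1, e2, a1]
    · have e1 : muS m X = D Set.univ X := if_neg hX
      have e2 : muS m ((fun x : ℤ => k * x + h) '' X) =
          D Set.univ ((fun x : ℤ => k * x + h) '' X) := if_neg fun h => hX (a3.1 h)
      rw [e1, e2, a2]
  · intro X _
    unfold muS
    split_ifs
    · exact D_le_one _ _
    · exact D_le_one _ _

private lemma not_inv {H : Set ℤ} {m : ℤ} (hm : m = 0 ∨ m = 1) (hH : H = Set.Ici m) :
    ¬ AllLowerInvariant H := by
  intro hall
  have hu := muS_upper hm hH
  have hZm : ∀ x ∈ Z, m + 2 < x := by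
    rintro x ⟨n, hn, h1, _⟩
    have := Nat.factorial_le hn
    simp only [Nat.factorial] at this
    omega
  -- the set whose complement is `(W \ {m}) - 1`
  set Y : Set ℤ := (fun x : ℤ => x - 1) '' (W m \ {m}) with hY
  have hYH : Y ⊆ H := by
    rintro y ⟨x, ⟨hx | hx, hxm⟩, rfl⟩
    · rcases hx with rfl | rfl
      · exact absurd rfl hxm
      · rw [hH]
        simp
    · have := hZm x hx
      rw [hH]
      simp only [Set.mem_Ici]
      omega
  have key := hall _ hu (H \ Y) 1 Set.sdiff_subset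
  have e1 : lowerDual H (muS m) (H \ Y) = 0 := by
    unfold lowerDual
    rw [Set.sdiff_sdiff_right_self, Set.inter_eq_self_of_subset_right hYH]
    have h1 := hu.affine Y 1 1 hYH one_pos one_pos
    have h2 : (fun x : ℤ => ((1 : ℕ) : ℤ) * x + (1 : ℕ)) '' Y = W m \ {m} := by
      rw [hY, Set.image_image]
      simp
    rw [h2] at h1
    have h3 : muS m (W m \ {m}) = D Set.univ (W m \ {m}) := by
      apply if_neg
      rintro ⟨k, hk, t, ht⟩
      obtain ⟨rfl, rfl⟩ := rigid hm hk (ht.trans Set.sdiff_subset)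
      have : m ∈ W m \ {m} := ht ⟨m, Or.inl (Or.inl rfl), by simp⟩
      exact this.2 rfl
    have h4 : D Set.univ (W m \ {m}) = 1 := D_eq_one fun n => by
      obtain ⟨a, _, ha⟩ := Z_long n
      refine ⟨a, Set.mem_univ _, fun x hx => ⟨Or.inr (ha hx), ?_⟩⟩
      intro hxm
      have := hZm x (ha hx)
      have hxm' : x = m := hxm
      omega
    rw [h3, h4] at h1
    simp at h1
    linarith
  have e2 : lowerDual H (muS m) ((fun x : ℤ => x + ((1 : ℕ) : ℤ)) '' (H \ Y)) = 1 := by
    unfold lowerDual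
    have h1 : H \ ((fun x : ℤ => x + ((1 : ℕ) : ℤ)) '' (H \ Y)) = W m := by
      ext x
      constructor
      · rintro ⟨hxH, hx⟩
        by_cases hxm : x = m
        · exact Or.inl (Or.inl hxm)
        · by_contra hxW
          apply hx
          refine ⟨x - 1, ⟨?_, ?_⟩, by simp⟩
          · rw [hH] at hxH ⊢
            simp only [Set.mem_Ici] at *
            omega
          · rintro ⟨y, ⟨hy, _⟩, hyx⟩
            simp only at hyx
            have : y = x := by omega
            exact hxW (this ▸ hy)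
      · intro hx
        have hxH : x ∈ H := by
          rcases hx with hx | hx
          · rw [hH]
            rcases hx with rfl | rfl <;> simp
          · have := hZm x hx
            rw [hH]
            simp only [Set.mem_Ici]
            omega
        refine ⟨hxH, ?_⟩
        rintro ⟨y, ⟨hyH, hyY⟩, rfl⟩
        simp only at hx
        apply hyY
        refine ⟨y + 1, ⟨by simpa using hx, ?_⟩, by simp⟩
        intro hym
        have hym' : y + 1 = m := hym
        rw [hH] at hyH
        simp only [Set.mem_Ici] at hyH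
        omega
    rw [h1]
    have h3 : muS m (W m) = D {0} (W m) := by
      apply if_pos
      exact ⟨1, one_pos, 0, by rintro z ⟨w, hw, rfl⟩; simpa using hw⟩
    have h4 : D {0} (W m) = 0 := by
      apply le_antisymm _ (D_nonneg _ _)
      calc D {0} (W m) ≤ D {0} {m, m + 1} + D {0} Z := D_union _ _ _
        _ = 0 := by rw [D_Z, D_fin (Set.toFinite _), add_zero]
    rw [h3, h4, sub_zero]
  rw [e1, e2] at key
  norm_num at key

private lemma inv_univ : AllLowerInvariant Set.univ := by
  intro μ hμ X h _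
  rcases Nat.eq_zero_or_pos h with rfl | hh
  · simp
  · unfold lowerDual
    have h1 := hμ.affine (Set.univ \ X) h 1 (Set.subset_univ _) hh one_pos
    have h2 : (fun x : ℤ => ((1 : ℕ) : ℤ) * x + h) '' (Set.univ \ X) =
        Set.univ \ ((fun x : ℤ => x + (h : ℤ)) '' X) := by
      have hb : Function.Bijective (fun x : ℤ => x + (h : ℤ)) := (Equiv.addRight (h : ℤ)).bijective
      have : (fun x : ℤ => ((1 : ℕ) : ℤ) * x + h) = fun x : ℤ => x + (h : ℤ) := by
        funext x
        simp
      rw [this, ← Set.compl_eq_univ_sdiff, ← Set.compl_eq_univ_sdiff, Set.image_compl_eq hb]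
    rw [h2] at h1
    rw [h1]
    simp

/-- Q2: on `ℕ` and on `ℕ⁺` not every lower quasi-density is translation invariant, on `ℤ` every
lower quasi-density is. -/
theorem result : ¬ AllLowerInvariant (Set.Ici 0) ∧ ¬ AllLowerInvariant (Set.Ici 1) ∧
    AllLowerInvariant Set.univ :=
  ⟨not_inv (Or.inl rfl) rfl, not_inv (Or.inr rfl) rfl, inv_univ⟩

end Pool.Agent.Results.MP_1da4e9_nt.TranslationInvariance
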